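import Mathlib

set_option autoImplicit false

namespace Pool.Agent.Results.MP_ad4c49_an.ReflexiveKernel

open Set Filter Topology
open scoped ENNReal

section General

variable {𝕜 : Type} [RCLike 𝕜] {X : Type} [NormedAddCommGroup X] [NormedSpace 𝕜 X]

/-- Hahn-Banach separation of a point from a closed subspace. -/
theorem sep (W : Submodule 𝕜 X) (hW : IsClosed (W : Set X)) {x : X} (hx : x ∉ W) :
    ∃ f : X →L[𝕜] 𝕜, (∀ w ∈ W, f w = 0) ∧ f x ≠ 0 := by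
  have := hW
  have hx' : (W.mkQ x : X ⧸ W) ≠ 0 := by
    intro hcon
    exact hx ((Submodule.Quotient.mk_eq_zero W).1 hcon)
  obtain ⟨g, hg⟩ := SeparatingDual.exists_ne_zero (R := 𝕜) hx'
  refine ⟨g.comp W.mkQL, fun w hw => ?_, hg⟩
  have h1 : (W.mkQ w : X ⧸ W) = 0 := (Submodule.Quotient.mk_eq_zero W).2 hw
  show g (W.mkQ w) = 0
  rw [h1, map_zero]

/-- An almost norming element of a subspace. -/
theorem almost_norming (W : Submodule 𝕜 X) (f : X →L[𝕜] 𝕜) :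
    ∃ y ∈ W, ‖y‖ ≤ 1 ∧ ∀ z ∈ W, ‖f z‖ ≤ 2 * ‖f y‖ * ‖z‖ := by
  by_cases h0 : ∀ z ∈ W, f z = 0
  · exact ⟨0, W.zero_mem, by simp, fun z hz => by simp [h0 z hz]⟩
  · push Not at h0
    obtain ⟨z₀, hz₀, hfz₀⟩ := h0
    -- the supremum
    set S : Set ℝ := {t | ∃ z ∈ W, ‖z‖ ≤ 1 ∧ t = ‖f z‖} with hS
    have hbdd : BddAbove S := by
      refine ⟨‖f‖, ?_⟩
      rintro t ⟨z, -, hz, rfl⟩
      calc ‖f z‖ ≤ ‖f‖ * ‖z‖ := f.le_opNorm z
        _ ≤ ‖f‖ * 1 := by gcongr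
        _ = ‖f‖ := mul_one _
    have hz₀0 : z₀ ≠ 0 := by rintro rfl; exact hfz₀ (map_zero f)
    have hn0 : 0 < ‖z₀‖ := norm_pos_iff.2 hz₀0
    have hunit : ∀ z ∈ W, z ≠ 0 → ‖f z‖ / ‖z‖ ∈ S := by
      intro z hz hz0
      have hn : 0 < ‖z‖ := norm_pos_iff.2 hz0
      refine ⟨((‖z‖⁻¹ : ℝ) : 𝕜) • z, W.smul_mem _ hz, ?_, ?_⟩
      · rw [norm_smul, RCLike.norm_ofReal, abs_of_pos (inv_pos.2 hn), inv_mul_cancel₀ hn.ne']
      · rw [map_smul, norm_smul, RCLike.norm_ofReal, abs_of_pos (inv_pos.2 hn), div_eq_inv_mul]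
    have hpos : 0 < sSup S := by
      have h1 : 0 < ‖f z₀‖ / ‖z₀‖ := div_pos (norm_pos_iff.2 hfz₀) hn0
      exact h1.trans_le (le_csSup hbdd (hunit z₀ hz₀ hz₀0))
    obtain ⟨t, ht, hlt⟩ := exists_lt_of_lt_csSup (⟨_, hunit z₀ hz₀ hz₀0⟩ : S.Nonempty)
      (half_lt_self hpos)
    obtain ⟨y, hyW, hy1, rfl⟩ := ht
    refine ⟨y, hyW, hy1, fun z hz => ?_⟩
    by_cases hz0 : z = 0
    · rw [hz0]; simp
    · have h1 := le_csSup hbdd (hunit z hz hz0)
      have hn : 0 < ‖z‖ := norm_pos_iff.2 hz0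
      rw [div_le_iff₀ hn] at h1
      nlinarith

/-- A Bessel sequence of vectors paired with a Bessel sequence of functionals gives an operator. -/
theorem exists_operator {𝕜 X Λ : Type} [RCLike 𝕜] [NormedAddCommGroup X] [NormedSpace 𝕜 X]
    [CompleteSpace X] (g : Λ → X →L[𝕜] 𝕜) (w : Λ → X)
    (hg : ∀ (F : Finset Λ) (x : X), ∑ l ∈ F, ‖g l x‖ ^ 2 ≤ ‖x‖ ^ 2)
    (hw : ∀ (F : Finset Λ) (a : Λ → 𝕜), ‖∑ l ∈ F, a l • w l‖ ^ 2 ≤ ∑ l ∈ F, ‖a l‖ ^ 2) :
    ∃ T : X →L[𝕜] X, ∀ x, HasSum (fun l => g l x • w l) (T x) := by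
  classical
  have hsum : ∀ x, Summable fun l => g l x • w l := by
    intro x
    have h1 : Summable fun l => ‖g l x‖ ^ 2 :=
      summable_of_sum_le (fun l => by positivity) (hg · x)
    rw [summable_iff_vanishing_norm] at h1 ⊢
    intro ε hε
    obtain ⟨s, hs⟩ := h1 (ε ^ 2) (by positivity)
    refine ⟨s, fun t ht => ?_⟩
    have h2 := hs t ht
    have h3 := hw t (fun l => g l x)
    rw [Real.norm_eq_abs, abs_of_nonneg (by positivity)] at h2
    have h4 : ‖∑ l ∈ t, g l x • w l‖ ^ 2 < ε ^ 2 := h3.trans_lt h2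
    exact lt_of_pow_lt_pow_left₀ 2 hε.le h4
  let T₀ : X →ₗ[𝕜] X :=
    { toFun := fun x => ∑' l, g l x • w l
      map_add' := by
        intro x y
        rw [← (hsum x).tsum_add (hsum y)]
        congr 1
        ext l
        rw [map_add, add_smul]
      map_smul' := by
        intro a x
        rw [RingHom.id_apply, ← (hsum x).tsum_const_smul a]
        congr 1
        ext l
        rw [map_smul, smul_eq_mul, mul_smul] }
  have hb : ∀ x, ‖T₀ x‖ ≤ 1 * ‖x‖ := by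
    intro x
    have h1 : Tendsto (fun F : Finset Λ => ‖∑ l ∈ F, g l x • w l‖) atTop (𝓝 ‖T₀ x‖) :=
      (hsum x).hasSum.norm
    apply le_of_tendsto' h1
    intro F
    have h2 := (hw F (fun l => g l x)).trans (hg F x)
    rw [one_mul]
    exact le_of_sq_le_sq h2 (norm_nonneg _)
  exact ⟨T₀.mkContinuous 1 hb, fun x => (hsum x).hasSum⟩

end General

/-- A Banach space with a 1-unconditional basis which is boundedly complete and satisfies an upper
2-estimate. -/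
structure Frame (𝕜 : Type) [RCLike 𝕜] (X : Type) [NormedAddCommGroup X] [NormedSpace 𝕜 X]
    (I : Type) where
  c : I → X →L[𝕜] 𝕜
  e : I → X
  P : Set I → X →L[𝕜] X
  c_self : ∀ i, c i (e i) = 1
  c_ne : ∀ i j, i ≠ j → c i (e j) = 0
  c_P : ∀ A i x, i ∈ A → c i (P A x) = c i x
  c_P' : ∀ A i x, i ∉ A → c i (P A x) = 0
  ext : ∀ x, (∀ i, c i x = 0) → x = 0
  norm_P : ∀ A x, ‖P A x‖ ≤ ‖x‖
  upper : ∀ A x, ‖x‖ ^ 2 ≤ ‖P A x‖ ^ 2 + ‖P Aᶜ x‖ ^ 2
  dense : ∀ x, ∀ ε : ℝ, 0 < ε → ∃ F : Finset I, ‖x - P F x‖ ≤ ε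
  bc : ∀ (a : I → 𝕜) (M : ℝ), (∀ F : Finset I, ‖∑ i ∈ F, a i • e i‖ ≤ M) → ∃ x, ∀ i, c i x = a i

namespace Frame

variable {𝕜 : Type} [RCLike 𝕜] {X : Type} [NormedAddCommGroup X] [NormedSpace 𝕜 X] {I : Type}
  (Φ : Frame 𝕜 X I)

include Φ

theorem ext' {x y : X} (h : ∀ i, Φ.c i x = Φ.c i y) : x = y := by
  rw [← sub_eq_zero]
  apply Φ.ext
  intro i
  rw [map_sub, h i, sub_self]

theorem P_P (A B : Set I) (x : X) : Φ.P A (Φ.P B x) = Φ.P (A ∩ B) x := by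
  apply Φ.ext'
  intro i
  by_cases hA : i ∈ A
  · rw [Φ.c_P A i _ hA]
    by_cases hB : i ∈ B
    · rw [Φ.c_P B i _ hB, Φ.c_P (A ∩ B) i _ ⟨hA, hB⟩]
    · rw [Φ.c_P' B i _ hB, Φ.c_P' _ i _ (fun h => hB h.2)]
  · rw [Φ.c_P' A i _ hA, Φ.c_P' _ i _ (fun h => hA h.1)]

theorem P_add_compl (A : Set I) (x : X) : Φ.P A x + Φ.P Aᶜ x = x := by
  apply Φ.ext'
  intro i
  rw [map_add]
  by_cases hA : i ∈ A
  · rw [Φ.c_P A i _ hA, Φ.c_P' Aᶜ i _ (fun h => h hA), add_zero]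
  · rw [Φ.c_P' A i _ hA, Φ.c_P _ i _ hA, zero_add]

theorem P_compl (A : Set I) (x : X) : Φ.P Aᶜ x = x - Φ.P A x :=
  eq_sub_of_add_eq' (Φ.P_add_compl A x)

theorem P_empty (x : X) : Φ.P ∅ x = 0 := by
  apply Φ.ext
  intro i
  exact Φ.c_P' _ i _ (by simp)

theorem P_zero_of_disjoint {A : Set I} {x : X} (h : ∀ i ∈ A, Φ.c i x = 0) : Φ.P A x = 0 := by
  apply Φ.ext
  intro i
  by_cases hA : i ∈ A
  · rw [Φ.c_P A i _ hA, h i hA]
  · rw [Φ.c_P' A i _ hA]

theorem P_eq_self {A : Set I} {x : X} (h : ∀ i, i ∉ A → Φ.c i x = 0) : Φ.P A x = x := by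
  apply Φ.ext'
  intro i
  by_cases hA : i ∈ A
  · rw [Φ.c_P A i _ hA]
  · rw [Φ.c_P' A i _ hA, h i hA]

theorem P_union {A B : Set I} (h : Disjoint A B) (x : X) :
    Φ.P (A ∪ B) x = Φ.P A x + Φ.P B x := by
  apply Φ.ext'
  intro i
  rw [map_add]
  by_cases hA : i ∈ A
  · rw [Φ.c_P _ i _ (Or.inl hA), Φ.c_P _ i _ hA, Φ.c_P' _ i _ (Set.disjoint_left.1 h hA), add_zero]
  · by_cases hB : i ∈ B
    · rw [Φ.c_P _ i _ (Or.inr hB), Φ.c_P' _ i _ hA, Φ.c_P _ i _ hB, zero_add]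
    · rw [Φ.c_P' _ i _ (by rintro (h | h) <;> contradiction), Φ.c_P' _ i _ hA, Φ.c_P' _ i _ hB,
        zero_add]

theorem P_finset (F : Finset I) (x : X) : Φ.P (F : Set I) x = ∑ i ∈ F, Φ.c i x • Φ.e i := by
  classical
  apply Φ.ext'
  intro i
  rw [map_sum]
  have h1 : ∀ j ∈ F, Φ.c i (Φ.c j x • Φ.e j) = if j = i then Φ.c i x else 0 := by
    intro j _
    rw [map_smul]
    by_cases hij : j = i
    · rw [hij, if_pos rfl, Φ.c_self, smul_eq_mul, mul_one]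
    · rw [if_neg hij, Φ.c_ne i j (Ne.symm hij), smul_zero]
  rw [Finset.sum_congr rfl h1, Finset.sum_ite_eq']
  by_cases hi : i ∈ F
  · rw [if_pos hi, Φ.c_P _ i _ (Finset.mem_coe.2 hi)]
  · rw [if_neg hi, Φ.c_P' _ i _ (fun h => hi (Finset.mem_coe.1 h))]

theorem norm_e (i : I) : ‖Φ.P {i} (Φ.e i)‖ = ‖Φ.e i‖ := by
  rw [Φ.P_eq_self]
  intro j hj
  exact Φ.c_ne j i hj

/-- The upper estimate for two disjoint vectors. -/
theorem upper_add {A : Set I} {x y : X} (hx : ∀ i, i ∉ A → Φ.c i x = 0)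
    (hy : ∀ i ∈ A, Φ.c i y = 0) : ‖x + y‖ ^ 2 ≤ ‖x‖ ^ 2 + ‖y‖ ^ 2 := by
  have h1 : Φ.P A (x + y) = x := by
    rw [map_add, Φ.P_eq_self hx, Φ.P_zero_of_disjoint hy, add_zero]
  have h2 : Φ.P Aᶜ (x + y) = y := by
    rw [Φ.P_compl, h1, add_sub_cancel_left]
  have h3 := Φ.upper A (x + y)
  rwa [h1, h2] at h3

/-- The shrinking property, first form. -/
theorem shrink_aux (f : X →L[𝕜] 𝕜) {ε : ℝ} (hε : 0 < ε) :
    ∃ F : Finset I, ∀ x, ‖x‖ ≤ 1 → Φ.P F x = 0 → ‖f x‖ ≤ ε := by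
  classical
  by_contra hcon
  push Not at hcon
  have key : ∀ N : ℕ, ∃ (F : Finset I) (y : X) (r : ℝ), Φ.P F y = y ∧ ‖y‖ ^ 2 ≤ N ∧ N * ε ≤ r ∧
      f y = (r : 𝕜) := by
    intro N
    induction N with
    | zero => exact ⟨∅, 0, 0, by simp, by simp, by simp, by simp⟩
    | succ N ih =>
      obtain ⟨F, y, r, hFy, hy, hr, hf⟩ := ih
      obtain ⟨x, hx1, hx2, hx3⟩ := hcon F
      -- approximate `x` by a finitely supported vector
      set η : ℝ := (‖f x‖ - ε) / (‖f‖ + 1) with hη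
      have hη0 : 0 < η := div_pos (by linarith) (by positivity)
      obtain ⟨G, hG⟩ := Φ.dense x η hη0
      set x' := Φ.P G x with hx'
      have h1 : ε < ‖f x'‖ := by
        have h2 : ‖f x - f x'‖ ≤ ‖f‖ * η := by
          rw [← map_sub]
          exact (f.le_opNorm _).trans (by gcongr)
        have h3 : ‖f‖ * η < ‖f x‖ - ε := by
          rw [hη]
          rw [mul_div_assoc', div_lt_iff₀ (by positivity)]
          nlinarith [norm_nonneg f]
        have h4 : ‖f x‖ ≤ ‖f x - f x'‖ + ‖f x'‖ := by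
          calc ‖f x‖ = ‖(f x - f x') + f x'‖ := by rw [sub_add_cancel]
            _ ≤ _ := norm_add_le _ _
        linarith
      have h5 : ‖x'‖ ≤ 1 := (Φ.norm_P _ _).trans hx1
      have h6 : ∀ i ∈ (F : Set I), Φ.c i x' = 0 := by
        intro i hi
        have h7 : Φ.c i x = 0 := by
          rw [← Φ.c_P (F : Set I) i x hi, hx2, map_zero]
        by_cases hG : i ∈ (G : Set I)
        · rw [hx', Φ.c_P _ i _ hG, h7]
        · rw [hx', Φ.c_P' _ i _ hG]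
      have hf0 : f x' ≠ 0 := by
        intro h; rw [h, norm_zero] at h1; linarith
      set θ : 𝕜 := (‖f x'‖ : 𝕜) / f x' with hθ
      have hθ1 : ‖θ‖ = 1 := by
        rw [hθ, norm_div, RCLike.norm_ofReal, abs_norm, div_self (norm_ne_zero_iff.2 hf0)]
      have hθ2 : f (θ • x') = (‖f x'‖ : 𝕜) := by
        rw [map_smul, smul_eq_mul, hθ, div_mul_cancel₀ _ hf0]
      refine ⟨F ∪ G, y + θ • x', r + ‖f x'‖, ?_, ?_, ?_, ?_⟩
      · apply Φ.P_eq_self
        intro i hi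
        rw [Finset.coe_union] at hi
        rw [map_add, map_smul, hx', Φ.c_P' _ i _ (fun h => hi (Or.inr h)), ← hFy,
          Φ.c_P' _ i _ (fun h => hi (Or.inl h)), smul_zero, add_zero]
      · have h7 : ‖y + θ • x'‖ ^ 2 ≤ ‖y‖ ^ 2 + ‖θ • x'‖ ^ 2 := by
          apply Φ.upper_add (A := (F : Set I))
          · intro i hi
            rw [← hFy, Φ.c_P' _ i _ hi]
          · intro i hi
            rw [map_smul, h6 i hi, smul_zero]
        rw [norm_smul, hθ1, one_mul] at h7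
        push_cast
        have h8 : ‖x'‖ ^ 2 ≤ 1 := pow_le_one₀ (norm_nonneg _) h5
        linarith
      · push_cast
        linarith
      · rw [map_add, hf, hθ2]
        push_cast
        rfl
  -- the contradiction
  obtain ⟨N, hN⟩ := exists_nat_gt ((‖f‖ / ε) ^ 2)
  obtain ⟨F, y, r, -, hy, hr, hf⟩ := key N
  have h1 : N * ε ≤ ‖f‖ * ‖y‖ := by
    calc N * ε ≤ r := hr
      _ ≤ |r| := le_abs_self r
      _ = ‖f y‖ := by rw [hf, RCLike.norm_ofReal]
      _ ≤ _ := f.le_opNorm y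
  have h2 : (N * ε) ^ 2 ≤ ‖f‖ ^ 2 * N := by
    calc (N * ε) ^ 2 ≤ (‖f‖ * ‖y‖) ^ 2 := by
          apply pow_le_pow_left₀ (by positivity) h1
      _ = ‖f‖ ^ 2 * ‖y‖ ^ 2 := by ring
      _ ≤ _ := by gcongr
  have hN0 : (0 : ℝ) < N := lt_of_le_of_lt (by positivity) hN
  have h3 : (N : ℝ) * ε ^ 2 ≤ ‖f‖ ^ 2 := by
    have h4 : (N : ℝ) * (N * ε ^ 2) ≤ N * ‖f‖ ^ 2 := by nlinarith
    exact le_of_mul_le_mul_left h4 hN0
  rw [div_pow, div_lt_iff₀ (by positivity)] at hN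
  linarith

/-- The shrinking property. -/
theorem shrink (f : X →L[𝕜] 𝕜) {ε : ℝ} (hε : 0 < ε) :
    ∃ F : Finset I, ∀ x, ‖f x - f (Φ.P F x)‖ ≤ ε * ‖x‖ := by
  obtain ⟨F, hF⟩ := Φ.shrink_aux f hε
  refine ⟨F, fun x => ?_⟩
  have hz : ∀ z : X, Φ.P F z = 0 → ‖f z‖ ≤ ε * ‖z‖ := by
    intro z hz
    by_cases hz0 : z = 0
    · rw [hz0]; simp
    · have hn : 0 < ‖z‖ := norm_pos_iff.2 hz0
      have h1 := hF (((‖z‖⁻¹ : ℝ) : 𝕜) • z) (by
        rw [norm_smul, RCLike.norm_ofReal, abs_of_pos (inv_pos.2 hn), inv_mul_cancel₀ hn.ne'])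
        (by rw [map_smul, hz, smul_zero])
      rw [map_smul, norm_smul, RCLike.norm_ofReal, abs_of_pos (inv_pos.2 hn),
        inv_mul_le_iff₀ hn] at h1
      linarith
  rw [← map_sub, ← Φ.P_compl]
  refine (hz _ ?_).trans ?_
  · rw [Φ.P_P, inter_compl_self, Φ.P_empty]
  · gcongr
    exact Φ.norm_P _ _

/-- Every functional lives on countably many coordinates. -/
theorem countable_functional (f : X →L[𝕜] 𝕜) : {i | f (Φ.e i) ≠ 0}.Countable := by
  have h1 : ∀ n : ℕ, ∃ F : Finset I, ∀ x, ‖f x - f (Φ.P F x)‖ ≤ 1 / ((n : ℝ) + 1) * ‖x‖ := fun n =>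
    Φ.shrink f (by positivity)
  choose F hF using h1
  have h2 : {i | f (Φ.e i) ≠ 0} ⊆ ⋃ n, (F n : Set I) := by
    intro i hi
    by_contra hcon
    rw [mem_iUnion, not_exists] at hcon
    apply hi
    have h3 : ∀ n : ℕ, ‖f (Φ.e i)‖ ≤ 1 / ((n : ℝ) + 1) * ‖Φ.e i‖ := by
      intro n
      have h4 := hF n (Φ.e i)
      have h5 : Φ.P (F n : Set I) (Φ.e i) = 0 := by
        apply Φ.P_zero_of_disjoint
        intro j hj
        apply Φ.c_ne
        rintro rfl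
        exact hcon n hj
      rwa [h5, map_zero, sub_zero] at h4
    have h4 : Tendsto (fun n : ℕ => 1 / ((n : ℝ) + 1) * ‖Φ.e i‖) atTop (𝓝 (0 * ‖Φ.e i‖)) :=
      tendsto_one_div_add_atTop_nhds_zero_nat.mul_const _
    rw [zero_mul] at h4
    exact norm_le_zero_iff.1 (ge_of_tendsto' h4 h3)
  exact (countable_iUnion fun n => (F n).countable_toSet).mono h2

/-- Every vector lives on countably many coordinates. -/
theorem countable_vector (x : X) : {i | Φ.c i x ≠ 0}.Countable := by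
  have h1 : ∀ n : ℕ, ∃ F : Finset I, ‖x - Φ.P F x‖ ≤ 1 / ((n : ℝ) + 1) := fun n =>
    Φ.dense x _ (by positivity)
  choose F hF using h1
  have h2 : {i | Φ.c i x ≠ 0} ⊆ ⋃ n, (F n : Set I) := by
    intro i hi
    by_contra hcon
    rw [mem_iUnion, not_exists] at hcon
    apply hi
    have h3 : ∀ n : ℕ, ‖Φ.c i x‖ ≤ ‖Φ.c i‖ * (1 / ((n : ℝ) + 1)) := by
      intro n
      have h4 : Φ.c i (x - Φ.P (F n) x) = Φ.c i x := by
        rw [map_sub, Φ.c_P' _ i _ (hcon n), sub_zero]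
      rw [← h4]
      exact ((Φ.c i).le_opNorm _).trans (by gcongr; exact hF n)
    have h4 : Tendsto (fun n : ℕ => ‖Φ.c i‖ * (1 / ((n : ℝ) + 1))) atTop (𝓝 (‖Φ.c i‖ * 0)) :=
      tendsto_one_div_add_atTop_nhds_zero_nat.const_mul _
    rw [mul_zero] at h4
    exact norm_le_zero_iff.1 (ge_of_tendsto' h4 h3)
  exact (countable_iUnion fun n => (F n).countable_toSet).mono h2

/-- Reflexivity. -/
theorem reflexive : Function.Surjective (NormedSpace.inclusionInDoubleDual 𝕜 X) := by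
  intro φ
  have h1 : ∀ F : Finset I, ‖∑ i ∈ F, φ (Φ.c i) • Φ.e i‖ ≤ ‖φ‖ := by
    intro F
    set y := ∑ i ∈ F, φ (Φ.c i) • Φ.e i with hy
    obtain ⟨g, hg1, hg2⟩ := exists_dual_vector'' 𝕜 y
    have h2 : g y = φ (∑ i ∈ F, g (Φ.e i) • Φ.c i) := by
      rw [hy, map_sum, map_sum]
      apply Finset.sum_congr rfl
      intro i _
      rw [map_smul, map_smul, smul_eq_mul, smul_eq_mul, mul_comm]
    have h3 : ∑ i ∈ F, g (Φ.e i) • Φ.c i = g.comp (Φ.P F) := by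
      ext x
      rw [ContinuousLinearMap.comp_apply, Φ.P_finset, map_sum, sum_apply]
      apply Finset.sum_congr rfl
      intro i _
      rw [map_smul, smul_apply, smul_eq_mul, smul_eq_mul, mul_comm]
    have h4 : ‖g.comp (Φ.P F)‖ ≤ 1 := by
      apply ContinuousLinearMap.opNorm_le_bound _ zero_le_one
      intro x
      rw [ContinuousLinearMap.comp_apply]
      calc ‖g (Φ.P F x)‖ ≤ ‖g‖ * ‖Φ.P F x‖ := g.le_opNorm _
        _ ≤ 1 * ‖x‖ := by gcongr; exact Φ.norm_P _ _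
    have h5 : ‖y‖ = ‖g y‖ := by rw [hg2, RCLike.norm_ofReal, abs_norm]
    rw [h5, h2, h3]
    calc ‖φ (g.comp (Φ.P F))‖ ≤ ‖φ‖ * ‖g.comp (Φ.P F)‖ := φ.le_opNorm _
      _ ≤ ‖φ‖ * 1 := by gcongr
      _ = ‖φ‖ := mul_one _
  obtain ⟨x, hx⟩ := Φ.bc (fun i => φ (Φ.c i)) ‖φ‖ h1
  refine ⟨x, ?_⟩
  ext f
  rw [NormedSpace.dual_def]
  have key : ∀ ε : ℝ, 0 < ε → ‖f x - φ f‖ ≤ ε * (‖x‖ + ‖φ‖) := by
    intro ε hε
    obtain ⟨F, hF⟩ := Φ.shrink f hε
    have h2 : ‖f - f.comp (Φ.P F)‖ ≤ ε := by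
      apply ContinuousLinearMap.opNorm_le_bound _ hε.le
      intro z
      exact hF z
    have h3 : φ (f.comp (Φ.P F)) = f (Φ.P F x) := by
      have h4 : f.comp (Φ.P F) = ∑ i ∈ F, f (Φ.e i) • Φ.c i := by
        ext z
        rw [ContinuousLinearMap.comp_apply, Φ.P_finset, map_sum, sum_apply]
        apply Finset.sum_congr rfl
        intro i _
        rw [map_smul, smul_apply, smul_eq_mul, smul_eq_mul, mul_comm]
      rw [h4, map_sum, Φ.P_finset, map_sum]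
      apply Finset.sum_congr rfl
      intro i _
      rw [map_smul, map_smul, smul_eq_mul, smul_eq_mul, mul_comm, hx i]
    have h4 : f x - φ f = (f x - f (Φ.P F x)) - φ (f - f.comp (Φ.P F)) := by
      rw [map_sub, h3]; ring
    rw [h4]
    calc ‖(f x - f (Φ.P F x)) - φ (f - f.comp (Φ.P F))‖
        ≤ ‖f x - f (Φ.P F x)‖ + ‖φ (f - f.comp (Φ.P F))‖ := norm_sub_le _ _
      _ ≤ ε * ‖x‖ + ‖φ‖ * ε := by
          gcongr
          · exact hF x
          · exact (φ.le_opNorm _).trans (by gcongr)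
      _ = ε * (‖x‖ + ‖φ‖) := by ring
  have h5 : Tendsto (fun ε : ℝ => ε * (‖x‖ + ‖φ‖)) (𝓝[>] 0) (𝓝 (0 * (‖x‖ + ‖φ‖))) :=
    ((continuous_id.mul continuous_const).tendsto 0).mono_left nhdsWithin_le_nhds
  rw [zero_mul] at h5
  have h6 : ‖f x - φ f‖ ≤ 0 := ge_of_tendsto h5 (by
    filter_upwards [self_mem_nhdsWithin] with ε hε
    exact key ε hε)
  exact sub_eq_zero.1 (norm_le_zero_iff.1 h6)

/-- The sets whose projection leaves `W` invariant. -/
def Inv (W : Submodule 𝕜 X) (A : Set I) : Prop := ∀ z ∈ W, Φ.P A z ∈ W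

theorem inv_univ (W : Submodule 𝕜 X) : Φ.Inv W univ := by
  intro z hz
  rwa [Φ.P_eq_self (fun i hi => absurd (mem_univ i) hi)]

theorem inv_inter {W : Submodule 𝕜 X} {A B : Set I} (hA : Φ.Inv W A) (hB : Φ.Inv W B) :
    Φ.Inv W (A ∩ B) := by
  intro z hz
  rw [← Φ.P_P]
  exact hA _ (hB z hz)

theorem inv_compl {W : Submodule 𝕜 X} {A : Set I} (hA : Φ.Inv W A) : Φ.Inv W Aᶜ := by
  intro z hz
  rw [Φ.P_compl]
  exact W.sub_mem hz (hA z hz)

theorem P_sub_P {A B : Set I} (h : B ⊆ A) (x : X) : Φ.P A x - Φ.P B x = Φ.P (A \ B) x := by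
  rw [sub_eq_iff_eq_add, ← Φ.P_union disjoint_sdiff_left, sdiff_union_of_subset h]

theorem norm_P_le {A : Set I} {F : Finset I} (h : Disjoint A (F : Set I)) (x : X) :
    ‖Φ.P A x‖ ≤ ‖x - Φ.P F x‖ := by
  have h1 : Φ.P A x = Φ.P A (x - Φ.P F x) := by
    rw [map_sub, Φ.P_P, Set.disjoint_iff_inter_eq_empty.1 h, Φ.P_empty, sub_zero]
  rw [h1]
  exact Φ.norm_P _ _

theorem inv_sInter {W : Submodule 𝕜 X} (hW : IsClosed (W : Set X)) {S : Set (Set I)}
    (h : ∀ A ∈ S, Φ.Inv W A) : Φ.Inv W (⋂₀ S) := by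
  classical
  have key : ∀ F : Finset I, ∃ V : Set I, Φ.Inv W V ∧ ⋂₀ S ⊆ V ∧ ∀ i ∈ F, i ∈ V → i ∈ ⋂₀ S := by
    intro F
    induction F using Finset.induction_on with
    | empty => exact ⟨univ, Φ.inv_univ W, subset_univ _, by simp⟩
    | insert i F hi ih =>
      obtain ⟨V, hV1, hV2, hV3⟩ := ih
      by_cases hiS : i ∈ ⋂₀ S
      · refine ⟨V, hV1, hV2, fun j hj hjV => ?_⟩
        rcases Finset.mem_insert.1 hj with rfl | hj
        · exact hiS
        · exact hV3 j hj hjV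
      · rw [mem_sInter] at hiS
        push Not at hiS
        obtain ⟨A, hA, hiA⟩ := hiS
        refine ⟨V ∩ A, Φ.inv_inter hV1 (h A hA), subset_inter hV2 (sInter_subset_of_mem hA),
          fun j hj hjV => ?_⟩
        rcases Finset.mem_insert.1 hj with rfl | hj
        · exact absurd hjV.2 hiA
        · exact hV3 j hj hjV.1
  intro z hz
  have h1 : Φ.P (⋂₀ S) z ∈ closure (W : Set X) := by
    rw [Metric.mem_closure_iff]
    intro ε hε
    obtain ⟨F, hF⟩ := Φ.dense z (ε / 2) (by positivity)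
    obtain ⟨V, hV1, hV2, hV3⟩ := key F
    refine ⟨Φ.P V z, hV1 z hz, ?_⟩
    rw [dist_comm, dist_eq_norm, Φ.P_sub_P hV2]
    have h2 : Disjoint (V \ ⋂₀ S) (F : Set I) := by
      rw [Set.disjoint_left]
      intro i hi hiF
      exact hi.2 (hV3 i (Finset.mem_coe.1 hiF) hi.1)
    have h3 := (Φ.norm_P_le h2 z).trans hF
    linarith
  rwa [hW.closure_eq] at h1

/-- Closing off: every index is contained in a countable invariant set. -/
theorem closing {W : Submodule 𝕜 X} (hW : IsClosed (W : Set X)) (i₀ : I) :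
    ∃ A : Set I, i₀ ∈ A ∧ A.Countable ∧ Φ.Inv W A := by
  classical
  choose y hyW hy1 hy using fun f => almost_norming W f
  have step : ∀ A : {A : Set I // A.Countable}, ∃ A' : {A : Set I // A.Countable}, A.1 ⊆ A'.1 ∧
      (Submodule.span 𝕜 (Φ.c '' A.1) : Set (X →L[𝕜] 𝕜)) ⊆
        closure {g | ∀ j, Φ.c j (y g) ≠ 0 → j ∈ A'.1} := by
    rintro ⟨A, hA⟩
    obtain ⟨D, hD1, hD2⟩ := (hA.image Φ.c).isSeparable.span (R := 𝕜)
    refine ⟨⟨A ∪ ⋃ g ∈ D, {j | Φ.c j (y g) ≠ 0}, hA.union (hD1.biUnion fun g _ =>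
      Φ.countable_vector (y g))⟩, subset_union_left, hD2.trans (closure_mono ?_)⟩
    intro g hg j hj
    exact Or.inr (mem_biUnion hg hj)
  choose st hst1 hst2 using step
  set B : ℕ → {A : Set I // A.Countable} := fun n => st^[n] ⟨{i₀}, countable_singleton i₀⟩ with hB
  have hBs : ∀ n, B (n + 1) = st (B n) := by
    intro n
    simp only [hB, Function.iterate_succ_apply']
  have hmono : Monotone fun n => (B n).1 := by
    apply monotone_nat_of_le_succ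
    intro n
    rw [hBs]
    exact hst1 _
  set A : Set I := ⋃ n, (B n).1 with hA
  have hAB : ∀ n, (B n).1 ⊆ A := fun n => subset_iUnion (fun n => (B n).1) n
  refine ⟨A, hAB 0 rfl, countable_iUnion fun n => (B n).2, ?_⟩
  have hfin : ∀ F : Finset I, (F : Set I) ⊆ A → ∃ n, (F : Set I) ⊆ (B n).1 := by
    intro F
    induction F using Finset.induction_on with
    | empty => exact fun _ => ⟨0, by simp⟩
    | insert i F hi ih =>
      intro hF
      rw [Finset.coe_insert, insert_subset_iff] at hF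
      obtain ⟨n, hn⟩ := ih hF.2
      obtain ⟨m, hm⟩ := mem_iUnion.1 hF.1
      refine ⟨max n m, ?_⟩
      rw [Finset.coe_insert, insert_subset_iff]
      exact ⟨hmono (le_max_right n m) hm, hn.trans (hmono (le_max_left n m))⟩
  intro z hz
  by_contra hcon
  obtain ⟨f₀, hf₀, hfz⟩ := sep W hW hcon
  set f : X →L[𝕜] 𝕜 := f₀.comp (Φ.P A) with hf
  have hfA : ∀ i, i ∉ A → f (Φ.e i) = 0 := by
    intro i hi
    rw [hf, ContinuousLinearMap.comp_apply, Φ.P_zero_of_disjoint, map_zero]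
    intro j hj
    apply Φ.c_ne
    rintro rfl
    exact hi hj
  have key : ∀ ε : ℝ, 0 < ε → ‖f z‖ ≤ ε * (6 * ‖z‖) := by
    intro ε hε
    obtain ⟨F, hF⟩ := Φ.shrink f hε
    set g' : X →L[𝕜] 𝕜 := ∑ i ∈ F.filter (fun i => i ∈ A), f (Φ.e i) • Φ.c i with hg'
    have h1 : ∀ x, g' x = f (Φ.P F x) := by
      intro x
      rw [Φ.P_finset, map_sum, hg', sum_apply, Finset.sum_filter]
      apply Finset.sum_congr rfl
      intro i _
      split_ifs with hi
      · rw [map_smul, smul_apply, smul_eq_mul, smul_eq_mul, mul_comm]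
      · rw [map_smul, hfA i hi, smul_zero]
    obtain ⟨n, hn⟩ := hfin (F.filter (fun i => i ∈ A)) (by
      intro i hi
      exact (Finset.mem_filter.1 (Finset.mem_coe.1 hi)).2)
    have h2 : g' ∈ (Submodule.span 𝕜 (Φ.c '' (B n).1) : Set (X →L[𝕜] 𝕜)) := by
      apply Submodule.sum_mem
      intro i hi
      apply Submodule.smul_mem
      apply Submodule.subset_span
      exact ⟨i, hn (Finset.mem_coe.2 hi), rfl⟩
    obtain ⟨g, hg1, hg2⟩ := Metric.mem_closure_iff.1 (hst2 _ h2) ε hε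
    rw [dist_eq_norm] at hg2
    have h3 : ∀ x, ‖f x - g x‖ ≤ 2 * ε * ‖x‖ := by
      intro x
      have h4 : f x - g x = (f x - f (Φ.P F x)) + (g' - g) x := by
        rw [sub_apply, h1]; ring
      rw [h4]
      calc ‖(f x - f (Φ.P F x)) + (g' - g) x‖ ≤ ‖f x - f (Φ.P F x)‖ + ‖(g' - g) x‖ :=
            norm_add_le _ _
        _ ≤ ε * ‖x‖ + ε * ‖x‖ := by
            gcongr
            · exact hF x
            · exact ((g' - g).le_opNorm x).trans (by gcongr)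
        _ = _ := by ring
    have h5 : f (y g) = 0 := by
      rw [hf, ContinuousLinearMap.comp_apply, Φ.P_eq_self, hf₀ _ (hyW g)]
      intro i hi
      by_contra hne
      have h6 := hg1 i hne
      rw [← hBs] at h6
      exact hi (hAB _ h6)
    have h6 : ‖g (y g)‖ ≤ 2 * ε := by
      have h7 := h3 (y g)
      rw [h5, zero_sub, norm_neg] at h7
      refine h7.trans ?_
      calc 2 * ε * ‖y g‖ ≤ 2 * ε * 1 := by gcongr; exact hy1 g
        _ = 2 * ε := mul_one _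
    have h7 : ‖g z‖ ≤ 2 * (2 * ε) * ‖z‖ := (hy g z hz).trans (by gcongr)
    calc ‖f z‖ = ‖(f z - g z) + g z‖ := by rw [sub_add_cancel]
      _ ≤ ‖f z - g z‖ + ‖g z‖ := norm_add_le _ _
      _ ≤ 2 * ε * ‖z‖ + 2 * (2 * ε) * ‖z‖ := by gcongr; exact h3 z
      _ = ε * (6 * ‖z‖) := by ring
  have h5 : Tendsto (fun ε : ℝ => ε * (6 * ‖z‖)) (𝓝[>] 0) (𝓝 (0 * (6 * ‖z‖))) :=
    ((continuous_id.mul continuous_const).tendsto 0).mono_left nhdsWithin_le_nhds
  rw [zero_mul] at h5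
  have h6 : ‖f z‖ ≤ 0 := ge_of_tendsto h5 (by
    filter_upwards [self_mem_nhdsWithin] with ε hε
    exact key ε hε)
  exact hfz (norm_le_zero_iff.1 h6)

/-- The smallest invariant set containing `i`. -/
def blk (W : Submodule 𝕜 X) (i : I) : Set I := ⋂₀ {A | i ∈ A ∧ Φ.Inv W A}

theorem mem_blk (W : Submodule 𝕜 X) (i : I) : i ∈ Φ.blk W i := by
  intro A hA
  exact hA.1

theorem inv_blk {W : Submodule 𝕜 X} (hW : IsClosed (W : Set X)) (i : I) : Φ.Inv W (Φ.blk W i) :=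
  Φ.inv_sInter hW fun _ hA => hA.2

theorem blk_subset {W : Submodule 𝕜 X} {A : Set I} {i : I} (hi : i ∈ A) (hA : Φ.Inv W A) :
    Φ.blk W i ⊆ A := sInter_subset_of_mem ⟨hi, hA⟩

theorem countable_blk {W : Submodule 𝕜 X} (hW : IsClosed (W : Set X)) (i : I) :
    (Φ.blk W i).Countable := by
  obtain ⟨A, hA1, hA2, hA3⟩ := Φ.closing hW i
  exact hA2.mono (Φ.blk_subset hA1 hA3)

theorem blk_eq {W : Submodule 𝕜 X} (hW : IsClosed (W : Set X)) {i j : I}
    (h : j ∈ Φ.blk W i) : Φ.blk W j = Φ.blk W i := by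
  have h1 : Φ.blk W j ⊆ Φ.blk W i := Φ.blk_subset h (Φ.inv_blk hW i)
  apply Subset.antisymm h1
  have h2 : i ∈ Φ.blk W j := by
    by_contra hcon
    have h3 : Φ.blk W i ⊆ Φ.blk W i ∩ (Φ.blk W j)ᶜ :=
      Φ.blk_subset ⟨Φ.mem_blk W i, hcon⟩ (Φ.inv_inter (Φ.inv_blk hW i) (Φ.inv_compl (Φ.inv_blk hW j)))
    exact (h3 h).2 (Φ.mem_blk W j)
  exact Φ.blk_subset h2 (Φ.inv_blk hW j)

theorem blk_disjoint {W : Submodule 𝕜 X} (hW : IsClosed (W : Set X)) {i j : I}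
    (h : Φ.blk W i ≠ Φ.blk W j) : Disjoint (Φ.blk W i) (Φ.blk W j) := by
  rw [Set.disjoint_left]
  intro k hi hj
  exact h ((Φ.blk_eq hW hi).symm.trans (Φ.blk_eq hW hj))

/-- A sequence exhausting the part of `W` living on a countable invariant set. -/
theorem exists_seq {W : Submodule 𝕜 X} {B : Set I} (hB : B.Countable) (hBW : Φ.Inv W B) :
    ∃ u : ℕ → X, (∀ n, u n ∈ W) ∧ (∀ n, ‖u n‖ ≤ 1) ∧ (∀ n i, i ∉ B → Φ.c i (u n) = 0) ∧
      ∀ f : X →L[𝕜] 𝕜, (∀ n, f (u n) = 0) → ∀ z ∈ W, f (Φ.P B z) = 0 := by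
  classical
  set S : Set X := {x | ∃ z ∈ W, x = Φ.P B z} with hS
  have h1 : S ⊆ closure (Submodule.span 𝕜 (Φ.e '' B) : Set X) := by
    rintro x ⟨z, -, rfl⟩
    rw [Metric.mem_closure_iff]
    intro ε hε
    obtain ⟨F, hF⟩ := Φ.dense z (ε / 2) (by positivity)
    refine ⟨Φ.P (F.filter (fun i => i ∈ B) : Finset I) z, ?_, ?_⟩
    · rw [Φ.P_finset]
      apply Submodule.sum_mem
      intro i hi
      apply Submodule.smul_mem
      apply Submodule.subset_span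
      exact ⟨i, (Finset.mem_filter.1 hi).2, rfl⟩
    · have hsub : ((F.filter (fun i => i ∈ B) : Finset I) : Set I) ⊆ B := by
        intro i hi
        exact (Finset.mem_filter.1 (Finset.mem_coe.1 hi)).2
      rw [dist_eq_norm, Φ.P_sub_P hsub]
      have h2 : Disjoint (B \ ((F.filter (fun i => i ∈ B) : Finset I) : Set I)) (F : Set I) := by
        rw [Set.disjoint_left]
        intro i hi hiF
        exact hi.2 (Finset.mem_coe.2 (Finset.mem_filter.2 ⟨Finset.mem_coe.1 hiF, hi.1⟩))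
      have h3 := (Φ.norm_P_le h2 z).trans hF
      linarith
  have h2 : TopologicalSpace.IsSeparable S :=
    ((hB.image Φ.e).isSeparable.span (R := 𝕜)).closure.mono h1
  obtain ⟨t, htS, htc, hSt⟩ := h2.exists_countable_dense_subset
  have h0S : (0 : X) ∈ S := ⟨0, W.zero_mem, by rw [map_zero]⟩
  have htne : t.Nonempty := by
    by_contra hcon
    rw [not_nonempty_iff_eq_empty] at hcon
    rw [hcon, closure_empty] at hSt
    exact hSt h0S
  obtain ⟨d, hd⟩ := htc.exists_eq_range htne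
  have hdS : ∀ n, d n ∈ S := fun n => htS (by rw [hd]; exact mem_range_self n)
  have hpos : ∀ n, 0 < 1 + ‖d n‖ := fun n => by positivity
  refine ⟨fun n => (((1 + ‖d n‖)⁻¹ : ℝ) : 𝕜) • d n, fun n => ?_, fun n => ?_, fun n i hi => ?_, ?_⟩
  · obtain ⟨z, hz, hdz⟩ := hdS n
    apply W.smul_mem
    rw [hdz]
    exact hBW z hz
  · show ‖(((1 + ‖d n‖)⁻¹ : ℝ) : 𝕜) • d n‖ ≤ 1
    rw [norm_smul, RCLike.norm_ofReal, abs_of_pos (inv_pos.2 (hpos n)), inv_mul_le_iff₀ (hpos n)]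
    linarith
  · obtain ⟨z, hz, hdz⟩ := hdS n
    show Φ.c i ((((1 + ‖d n‖)⁻¹ : ℝ) : 𝕜) • d n) = 0
    rw [map_smul, hdz, Φ.c_P' _ i _ hi, smul_zero]
  · intro f hf z hz
    have h3 : ∀ x ∈ t, f x = 0 := by
      intro x hx
      rw [hd] at hx
      obtain ⟨n, rfl⟩ := hx
      have h4 := hf n
      rw [map_smul, smul_eq_zero] at h4
      rcases h4 with h4 | h4
      · exfalso
        have h5 : ((1 + ‖d n‖)⁻¹ : ℝ) ≠ 0 := (inv_pos.2 (hpos n)).ne'
        exact h5 (by exact_mod_cast h4)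
      · exact h4
    have h4 : closure t ⊆ {x | f x = 0} :=
      closure_minimal h3 (isClosed_eq f.continuous continuous_const)
    exact h4 (hSt ⟨z, hz, rfl⟩)

/-- The upper estimate for a finite disjoint family. -/
theorem upper_sum {ι : Type} [DecidableEq ι] (G : Finset ι) (S : ι → Set I)
    (hS : ∀ a ∈ G, ∀ b ∈ G, a ≠ b → Disjoint (S a) (S b)) (z : ι → X)
    (hz : ∀ a ∈ G, ∀ i, i ∉ S a → Φ.c i (z a) = 0) :
    ‖∑ a ∈ G, z a‖ ^ 2 ≤ ∑ a ∈ G, ‖z a‖ ^ 2 := by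
  induction G using Finset.induction_on with
  | empty => simp
  | insert a G ha ih =>
    rw [Finset.sum_insert ha, Finset.sum_insert ha]
    have h1 := ih (fun b hb c hc hbc => hS b (Finset.mem_insert_of_mem hb) c
      (Finset.mem_insert_of_mem hc) hbc) (fun b hb => hz b (Finset.mem_insert_of_mem hb))
    have h2 : ‖z a + ∑ b ∈ G, z b‖ ^ 2 ≤ ‖z a‖ ^ 2 + ‖∑ b ∈ G, z b‖ ^ 2 := by
      apply Φ.upper_add (A := S a)
      · exact hz a (Finset.mem_insert_self a G)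
      · intro i hi
        rw [map_sum]
        apply Finset.sum_eq_zero
        intro b hb
        apply hz b (Finset.mem_insert_of_mem hb)
        have hab : a ≠ b := by rintro rfl; exact ha hb
        exact Set.disjoint_left.1 (hS a (Finset.mem_insert_self a G) b
          (Finset.mem_insert_of_mem hb) hab) hi
    linarith

/-- Every closed subspace is the closure of the range of an operator. -/
theorem exists_range [CompleteSpace X] (J : I × ℕ → I) (hJ : Function.Injective J)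
    (hJb : ∀ (F : Finset (I × ℕ)) (x : X), ∑ l ∈ F, ‖Φ.c (J l) x‖ ^ 2 ≤ ‖x‖ ^ 2)
    {W : Submodule 𝕜 X} (hW : IsClosed (W : Set X)) :
    ∃ T : X →L[𝕜] X, (∀ x, T x ∈ W) ∧
      ∀ f : X →L[𝕜] 𝕜, (∀ x, f (T x) = 0) → ∀ z ∈ W, f z = 0 := by
  classical
  -- the blocks
  let K : Type := {B : Set I // ∃ i, B = Φ.blk W i}
  have hKc : ∀ B : K, B.1.Countable := by
    rintro ⟨B, i, rfl⟩
    exact Φ.countable_blk hW i
  have hKi : ∀ B : K, Φ.Inv W B.1 := by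
    rintro ⟨B, i, rfl⟩
    exact Φ.inv_blk hW i
  have hKd : ∀ B C : K, B ≠ C → Disjoint B.1 C.1 := by
    rintro ⟨B, i, rfl⟩ ⟨C, j, rfl⟩ h
    apply Φ.blk_disjoint hW
    intro hij
    exact h (Subtype.ext hij)
  have hpick : ∀ B : K, ∃ i, i ∈ B.1 := by
    rintro ⟨B, i, rfl⟩
    exact ⟨i, Φ.mem_blk W i⟩
  choose pick hpick using hpick
  have hpinj : Function.Injective pick := by
    intro B C hBC
    by_contra hne
    have h1 := hpick C
    rw [← hBC] at h1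
    exact Set.disjoint_left.1 (hKd B C hne) (hpick B) h1
  choose u huW hu1 hu0 huf using fun B : K => Φ.exists_seq (hKc B) (hKi B)
  -- the vectors and the functionals
  set w : K × ℕ → X := fun l => (((1 / 2 : ℝ) ^ (l.2 + 1) : ℝ) : 𝕜) • u l.1 l.2 with hw
  set g : K × ℕ → X →L[𝕜] 𝕜 := fun l => Φ.c (J (pick l.1, l.2)) with hg
  have hinj : Function.Injective fun l : K × ℕ => (pick l.1, l.2) := by
    rintro ⟨B, n⟩ ⟨C, m⟩ h
    simp only [Prod.mk.injEq] at h ⊢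
    exact ⟨hpinj h.1, h.2⟩
  have hgb : ∀ (F : Finset (K × ℕ)) (x : X), ∑ l ∈ F, ‖g l x‖ ^ 2 ≤ ‖x‖ ^ 2 := by
    intro F x
    have h1 := hJb (F.map ⟨fun l : K × ℕ => (pick l.1, l.2), hinj⟩) x
    rwa [Finset.sum_map] at h1
  have hwb : ∀ (F : Finset (K × ℕ)) (a : K × ℕ → 𝕜), ‖∑ l ∈ F, a l • w l‖ ^ 2 ≤
      ∑ l ∈ F, ‖a l‖ ^ 2 := by
    intro F a
    have hmaps : ∀ l ∈ F, l.1 ∈ F.image Prod.fst := fun l hl => Finset.mem_image_of_mem _ hl
    rw [← Finset.sum_fiberwise_of_maps_to hmaps, ← Finset.sum_fiberwise_of_maps_to hmaps]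
    refine (Φ.upper_sum (F.image Prod.fst) (fun B : K => B.1) (fun B _ C _ h => hKd B C h) _
      ?_).trans (Finset.sum_le_sum ?_)
    · intro B _ i hi
      rw [map_sum]
      apply Finset.sum_eq_zero
      intro l hl
      have hl1 : l.1 = B := (Finset.mem_filter.1 hl).2
      rw [map_smul, hw]
      simp only
      rw [map_smul, hu0 l.1 l.2 i (by rw [hl1]; exact hi), smul_zero, smul_zero]
    · intro B _
      set G := F.filter (fun l => l.1 = B) with hG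
      have h1 : ‖∑ l ∈ G, a l • w l‖ ≤ ∑ l ∈ G, ‖a l‖ * (1 / 2 : ℝ) ^ (l.2 + 1) := by
        refine (norm_sum_le _ _).trans (Finset.sum_le_sum fun l _ => ?_)
        rw [norm_smul, hw]
        simp only
        rw [norm_smul, RCLike.norm_ofReal, abs_of_pos (by positivity)]
        calc ‖a l‖ * ((1 / 2 : ℝ) ^ (l.2 + 1) * ‖u l.1 l.2‖)
            ≤ ‖a l‖ * ((1 / 2 : ℝ) ^ (l.2 + 1) * 1) := by gcongr; exact hu1 _ _
          _ = _ := by rw [mul_one]
      have h2 : (∑ l ∈ G, ‖a l‖ * (1 / 2 : ℝ) ^ (l.2 + 1)) ^ 2 ≤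
          (∑ l ∈ G, ‖a l‖ ^ 2) * ∑ l ∈ G, ((1 / 2 : ℝ) ^ (l.2 + 1)) ^ 2 :=
        Finset.sum_mul_sq_le_sq_mul_sq _ _ _
      have h3 : ∑ l ∈ G, ((1 / 2 : ℝ) ^ (l.2 + 1)) ^ 2 ≤ 1 := by
        have hGinj : Set.InjOn (fun l : K × ℕ => l.2) (G : Set (K × ℕ)) := by
          intro l hl m hm hlm
          have hl1 : l.1 = B := (Finset.mem_filter.1 (Finset.mem_coe.1 hl)).2
          have hm1 : m.1 = B := (Finset.mem_filter.1 (Finset.mem_coe.1 hm)).2
          exact Prod.ext (hl1.trans hm1.symm) hlm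
        calc ∑ l ∈ G, ((1 / 2 : ℝ) ^ (l.2 + 1)) ^ 2
            = ∑ n ∈ G.image (fun l => l.2), ((1 / 2 : ℝ) ^ (n + 1)) ^ 2 :=
              (Finset.sum_image (f := fun n : ℕ => ((1 / 2 : ℝ) ^ (n + 1)) ^ 2) hGinj).symm
          _ ≤ ∑ n ∈ G.image (fun l => l.2), (1 / 2 : ℝ) ^ n * (1 / 2) := by
              apply Finset.sum_le_sum
              intro n _
              rw [← pow_succ, ← pow_mul]
              apply pow_le_pow_of_le_one (by norm_num) (by norm_num)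
              omega
          _ ≤ ∑' n : ℕ, (1 / 2 : ℝ) ^ n * (1 / 2) := by
              apply Summable.sum_le_tsum
              · intro n _; positivity
              · exact summable_geometric_two.mul_right _
          _ = 1 := by rw [tsum_mul_right, tsum_geometric_two]; norm_num
      have h4 : 0 ≤ ∑ l ∈ G, ‖a l‖ ^ 2 := by positivity
      calc ‖∑ l ∈ G, a l • w l‖ ^ 2 ≤ (∑ l ∈ G, ‖a l‖ * (1 / 2 : ℝ) ^ (l.2 + 1)) ^ 2 :=
            pow_le_pow_left₀ (norm_nonneg _) h1 2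
        _ ≤ (∑ l ∈ G, ‖a l‖ ^ 2) * ∑ l ∈ G, ((1 / 2 : ℝ) ^ (l.2 + 1)) ^ 2 := h2
        _ ≤ (∑ l ∈ G, ‖a l‖ ^ 2) * 1 := by gcongr
        _ = _ := mul_one _
  obtain ⟨T, hT⟩ := exists_operator g w hgb hwb
  have hwW : ∀ l, w l ∈ W := fun l => W.smul_mem _ (huW _ _)
  refine ⟨T, fun x => ?_, fun f hf z hz => ?_⟩
  · have h1 : T x ∈ closure (W : Set X) := by
      apply mem_closure_of_tendsto (hT x)
      filter_upwards with F
      exact W.sum_mem fun l _ => W.smul_mem _ (hwW l)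
    rwa [hW.closure_eq] at h1
  · -- `f` vanishes on all `w l`
    have hfw : ∀ l, f (w l) = 0 := by
      intro l
      have h1 : T (Φ.e (J (pick l.1, l.2))) = w l := by
        apply (hT _).unique
        have h2 : ∀ m, m ≠ l → g m (Φ.e (J (pick l.1, l.2))) • w m = 0 := by
          intro m hm
          rw [hg]
          simp only
          rw [Φ.c_ne, zero_smul]
          intro h3
          exact hm (hinj (hJ h3))
        have h3 : g l (Φ.e (J (pick l.1, l.2))) • w l = w l := by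
          rw [hg]
          simp only
          rw [Φ.c_self, one_smul]
        have h4 := hasSum_single l h2
        rwa [h3] at h4
      rw [← h1]
      exact hf _
    have hfu : ∀ (B : K) n, f (u B n) = 0 := by
      intro B n
      have h1 := hfw (B, n)
      rw [hw] at h1
      simp only at h1
      rw [map_smul, smul_eq_zero] at h1
      rcases h1 with h1 | h1
      · exfalso
        have h2 : ((1 / 2 : ℝ) ^ (n + 1) : ℝ) ≠ 0 := by positivity
        exact h2 (by exact_mod_cast h1)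
      · exact h1
    have hfB : ∀ (B : K), f (Φ.P B.1 z) = 0 := fun B => huf B f (hfu B) z hz
    have hfF : ∀ F : Finset I, f (Φ.P (⋃ i ∈ F, Φ.blk W i) z) = 0 := by
      intro F
      induction F using Finset.induction_on with
      | empty => simp [Φ.P_empty]
      | insert i F hi ih =>
        rw [Finset.set_biUnion_insert]
        by_cases hiV : i ∈ ⋃ j ∈ F, Φ.blk W j
        · have h1 : Φ.blk W i ∪ ⋃ j ∈ F, Φ.blk W j = ⋃ j ∈ F, Φ.blk W j := by
            rw [union_eq_right]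
            obtain ⟨j, hj, hij⟩ := mem_iUnion₂.1 hiV
            rw [Φ.blk_eq hW hij]
            exact subset_iUnion₂ (s := fun j _ => Φ.blk W j) j hj
          rw [h1]
          exact ih
        · have h1 : Disjoint (Φ.blk W i) (⋃ j ∈ F, Φ.blk W j) := by
            rw [Set.disjoint_left]
            intro k hk hk2
            obtain ⟨j, hj, hkj⟩ := mem_iUnion₂.1 hk2
            apply hiV
            apply mem_iUnion₂.2
            refine ⟨j, hj, ?_⟩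
            rw [← Φ.blk_eq hW hkj, Φ.blk_eq hW hk]
            exact Φ.mem_blk W i
          rw [Φ.P_union h1, map_add, ih, hfB ⟨Φ.blk W i, i, rfl⟩, add_zero]
    have key : ∀ ε : ℝ, 0 < ε → ‖f z‖ ≤ ‖f‖ * ε := by
      intro ε hε
      obtain ⟨F, hF⟩ := Φ.dense z ε hε
      set V := ⋃ i ∈ F, Φ.blk W i with hV
      have h1 : f z = f (Φ.P Vᶜ z) := by
        rw [Φ.P_compl, map_sub, hfF F, sub_zero]
      have h2 : Disjoint Vᶜ (F : Set I) := by
        rw [Set.disjoint_left]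
        intro i hi hiF
        exact hi (mem_iUnion₂.2 ⟨i, Finset.mem_coe.1 hiF, Φ.mem_blk W i⟩)
      rw [h1]
      exact (f.le_opNorm _).trans (by
        gcongr
        exact (Φ.norm_P_le h2 z).trans hF)
    have h5 : Tendsto (fun ε : ℝ => ‖f‖ * ε) (𝓝[>] 0) (𝓝 (‖f‖ * 0)) :=
      ((continuous_const.mul continuous_id).tendsto 0).mono_left nhdsWithin_le_nhds
    rw [mul_zero] at h5
    have h6 : ‖f z‖ ≤ 0 := ge_of_tendsto h5 (by
      filter_upwards [self_mem_nhdsWithin] with ε hε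
      exact key ε hε)
    exact norm_le_zero_iff.1 h6

end Frame

/-- `X` answers the kernel problem positively: every closed subspace of `X` is the kernel of a
bounded operator from `X` to `X`. -/
def Positive (𝕜 : Type) [RCLike 𝕜] (X : Type) [NormedAddCommGroup X] [NormedSpace 𝕜 X] : Prop :=
  ∀ Y : Submodule 𝕜 X, IsClosed (Y : Set X) → ∃ T : X →L[𝕜] X, ∀ x, x ∈ Y ↔ T x = 0

theorem Frame.positive_dual {𝕜 : Type} [RCLike 𝕜] {X : Type} [NormedAddCommGroup X]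
    [NormedSpace 𝕜 X] {I : Type} (Φ : Frame 𝕜 X I) [CompleteSpace X] (J : I × ℕ → I)
    (hJ : Function.Injective J)
    (hJb : ∀ (F : Finset (I × ℕ)) (x : X), ∑ l ∈ F, ‖Φ.c (J l) x‖ ^ 2 ≤ ‖x‖ ^ 2) :
    Positive 𝕜 (StrongDual 𝕜 X) := by
  intro Z hZ
  set W : Submodule 𝕜 X := ⨅ f : Z, LinearMap.ker (f : StrongDual 𝕜 X).toLinearMap with hW
  have hWmem : ∀ x, x ∈ W ↔ ∀ f ∈ Z, f x = 0 := by
    intro x
    rw [hW, Submodule.mem_iInf]
    constructor
    · intro h f hf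
      exact h ⟨f, hf⟩
    · rintro h ⟨f, hf⟩
      exact h f hf
  have hWc : IsClosed (W : Set X) := by
    have h1 : (W : Set X) = ⋂ f ∈ Z, {x | f x = 0} := by
      ext x
      rw [SetLike.mem_coe, hWmem, mem_iInter₂]
      rfl
    rw [h1]
    exact isClosed_biInter fun f _ => isClosed_eq f.continuous continuous_const
  obtain ⟨T, hT1, hT2⟩ := Φ.exists_range J hJ hJb hWc
  refine ⟨(ContinuousLinearMap.compL 𝕜 X X 𝕜).flip T, fun f => ?_⟩
  have h1 : (ContinuousLinearMap.compL 𝕜 X X 𝕜).flip T f = f.comp T := rfl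
  rw [h1]
  constructor
  · intro hf
    ext x
    exact (hWmem _).1 (hT1 x) f hf
  · intro hf
    have h2 : ∀ z ∈ W, f z = 0 := hT2 f fun x => by
      rw [← ContinuousLinearMap.comp_apply, hf]; rfl
    by_contra hfZ
    obtain ⟨φ, hφ, hφf⟩ := sep Z hZ hfZ
    obtain ⟨x, rfl⟩ := Φ.reflexive φ
    apply hφf
    rw [NormedSpace.dual_def]
    apply h2
    rw [hWmem]
    intro g hg
    have h3 := hφ g hg
    rwa [NormedSpace.dual_def] at h3

section Concrete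

/-- The exponents. -/
noncomputable def ex (k : ℕ) : ℝ≥0∞ := ((k + 2 : ℕ) : ℝ≥0∞)

theorem ex_toReal (k : ℕ) : (ex k).toReal = ((k + 2 : ℕ) : ℝ) := by
  unfold ex
  rw [ENNReal.toReal_natCast]

theorem ex_pos (k : ℕ) : 0 < (ex k).toReal := by
  rw [ex_toReal]; positivity

theorem ex_ne_zero (k : ℕ) : ex k ≠ 0 := by
  unfold ex
  exact_mod_cast (by omega : k + 2 ≠ 0)

theorem ex_ne_top (k : ℕ) : ex k ≠ ⊤ := by
  unfold ex
  exact ENNReal.natCast_ne_top _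

instance instFactEx (k : ℕ) : Fact (1 ≤ ex k) := ⟨by
  unfold ex
  exact_mod_cast (by omega : 1 ≤ k + 2)⟩

variable {𝕜 : Type} [RCLike 𝕜] {Γ : Type}

/-- The space `ℓ_{k+2}(Γ)`. -/
abbrev Lk (𝕜 : Type) [RCLike 𝕜] (Γ : Type) (k : ℕ) : Type := lp (fun _ : Γ => 𝕜) (ex k)

/-- The `ℓ₂`-sum of the spaces `ℓ_{k+2}(Γ)`. -/
abbrev Sp (𝕜 : Type) [RCLike 𝕜] (Γ : Type) : Type := lp (fun k : ℕ => Lk 𝕜 Γ k) 2

theorem hasSum_Lk {k : ℕ} (y : Lk 𝕜 Γ k) : HasSum (fun γ => ‖y γ‖ ^ (k + 2)) (‖y‖ ^ (k + 2)) := by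
  have h1 := lp.hasSum_norm (ex_pos k) y
  rw [ex_toReal] at h1
  simpa only [Real.rpow_natCast] using h1

theorem hasSum_Sp (x : Sp 𝕜 Γ) : HasSum (fun k => ‖x k‖ ^ 2) (‖x‖ ^ 2) := by
  have h1 := lp.hasSum_norm (p := 2) (by norm_num) x
  simpa using h1

/-- Restriction of an element of `ℓ_{k+2}(Γ)` to a subset of `Γ`. -/
noncomputable def cutk {k : ℕ} (B : Set Γ) (y : Lk 𝕜 Γ k) : Lk 𝕜 Γ k :=
  ⟨fun γ => B.indicator (fun γ => y γ) γ, (lp.memℓp y).mono' fun γ =>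
    norm_indicator_le_norm_self (fun γ => y γ) γ⟩

theorem cutk_apply {k : ℕ} (B : Set Γ) (y : Lk 𝕜 Γ k) (γ : Γ) :
    cutk B y γ = B.indicator (fun γ => y γ) γ := rfl

theorem norm_cutk_le {k : ℕ} (B : Set Γ) (y : Lk 𝕜 Γ k) : ‖cutk B y‖ ≤ ‖y‖ :=
  lp.norm_mono (ex_ne_zero k) fun γ => norm_indicator_le_norm_self (fun γ => y γ) γ

theorem norm_cutk_pow {k : ℕ} (B : Set Γ) (y : Lk 𝕜 Γ k) :
    ‖y‖ ^ (k + 2) = ‖cutk B y‖ ^ (k + 2) + ‖cutk Bᶜ y‖ ^ (k + 2) := by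
  have h1 := (hasSum_Lk (cutk B y)).add (hasSum_Lk (cutk Bᶜ y))
  refine (hasSum_Lk y).unique ?_
  convert h1 using 2 with γ
  rw [cutk_apply, cutk_apply]
  by_cases h : γ ∈ B
  · rw [indicator_of_mem h, indicator_of_notMem (show γ ∉ Bᶜ from fun h' => h' h), norm_zero,
      zero_pow (by omega), add_zero]
  · rw [indicator_of_notMem h, indicator_of_mem (show γ ∈ Bᶜ from h), norm_zero,
      zero_pow (by omega), zero_add]

theorem pow_two_le {p : ℕ} (hp : 2 ≤ p) {a b c : ℝ} (ha : 0 ≤ a) (hb : 0 ≤ b) (hc : 0 ≤ c)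
    (h : c ^ p = a ^ p + b ^ p) : c ^ 2 ≤ a ^ 2 + b ^ 2 := by
  by_contra hcon
  push Not at hcon
  have hc0 : 0 < c := by
    rcases hc.lt_or_eq with h0 | h0
    · exact h0
    · rw [← h0] at hcon; nlinarith [sq_nonneg a, sq_nonneg b]
  have ha1 : a ≤ c := by nlinarith [sq_nonneg b]
  have hb1 : b ≤ c := by nlinarith [sq_nonneg a]
  obtain ⟨q, rfl⟩ : ∃ q, p = q + 2 := ⟨p - 2, by omega⟩
  have h1 : a ^ (q + 2) ≤ c ^ q * a ^ 2 := by
    rw [pow_add]; gcongr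
  have h2 : b ^ (q + 2) ≤ c ^ q * b ^ 2 := by
    rw [pow_add]; gcongr
  have h3 : c ^ q * (a ^ 2 + b ^ 2) < c ^ q * c ^ 2 := by
    have : 0 < c ^ q := by positivity
    exact mul_lt_mul_of_pos_left hcon this
  rw [pow_add c q 2] at h
  linarith

theorem norm_cutk_sq {k : ℕ} (B : Set Γ) (y : Lk 𝕜 Γ k) :
    ‖y‖ ^ 2 ≤ ‖cutk B y‖ ^ 2 + ‖cutk Bᶜ y‖ ^ 2 :=
  pow_two_le (by omega) (norm_nonneg _) (norm_nonneg _) (norm_nonneg _) (norm_cutk_pow B y)

/-- Restriction of an element of the space to a set of coordinates. -/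
noncomputable def cut (A : Set (ℕ × Γ)) (x : Sp 𝕜 Γ) : Sp 𝕜 Γ :=
  ⟨fun k => cutk {γ | (k, γ) ∈ A} (x k), (lp.memℓp x).mono' fun k => norm_cutk_le _ (x k)⟩

theorem cut_apply (A : Set (ℕ × Γ)) (x : Sp 𝕜 Γ) (k : ℕ) :
    cut A x k = cutk {γ | (k, γ) ∈ A} (x k) := rfl

theorem norm_cut_le (A : Set (ℕ × Γ)) (x : Sp 𝕜 Γ) : ‖cut A x‖ ≤ ‖x‖ :=
  lp.norm_mono (by norm_num) fun k => norm_cutk_le _ (x k)

theorem norm_cut_sq (A : Set (ℕ × Γ)) (x : Sp 𝕜 Γ) : ‖x‖ ^ 2 ≤ ‖cut A x‖ ^ 2 + ‖cut Aᶜ x‖ ^ 2 := by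
  refine hasSum_le (fun k => ?_) (hasSum_Sp x) ((hasSum_Sp (cut A x)).add (hasSum_Sp (cut Aᶜ x)))
  exact norm_cutk_sq {γ | (k, γ) ∈ A} (x k)

/-- The restriction as an operator. -/
noncomputable def cutL (A : Set (ℕ × Γ)) : Sp 𝕜 Γ →L[𝕜] Sp 𝕜 Γ :=
  LinearMap.mkContinuous
    { toFun := cut A
      map_add' := by
        intro x y
        apply lp.ext
        funext k
        apply lp.ext
        funext γ
        exact Set.indicator_add _ _ _ |> congrFun <| γ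
      map_smul' := by
        intro a x
        apply lp.ext
        funext k
        apply lp.ext
        funext γ
        show ({γ | (k, γ) ∈ A} : Set Γ).indicator (fun γ => a • x k γ) γ =
          a • ({γ | (k, γ) ∈ A} : Set Γ).indicator (fun γ => x k γ) γ
        by_cases h : γ ∈ {γ | (k, γ) ∈ A}
        · rw [indicator_of_mem h, indicator_of_mem h]
        · rw [indicator_of_notMem h, indicator_of_notMem h, smul_zero] } 1 (fun x => by
          rw [one_mul]; exact norm_cut_le A x)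

theorem cutL_apply (A : Set (ℕ × Γ)) (x : Sp 𝕜 Γ) : cutL A x = cut A x := rfl

/-- The coordinate functionals. -/
noncomputable def coord (i : ℕ × Γ) : Sp 𝕜 Γ →L[𝕜] 𝕜 :=
  (lp.evalCLM 𝕜 (fun _ : Γ => 𝕜) (ex i.1) i.2).comp (lp.evalCLM 𝕜 (fun k : ℕ => Lk 𝕜 Γ k) 2 i.1)

theorem coord_apply (i : ℕ × Γ) (x : Sp 𝕜 Γ) : coord i x = x i.1 i.2 := rfl

open Classical in
/-- The unit vectors. -/
noncomputable def unit (i : ℕ × Γ) : Sp 𝕜 Γ :=
  lp.single 2 i.1 (lp.single (ex i.1) i.2 (1 : 𝕜) : Lk 𝕜 Γ i.1)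

open Classical in
theorem unit_apply (i : ℕ × Γ) (k : ℕ) (γ : Γ) :
    (unit i : Sp 𝕜 Γ) k γ = if i = (k, γ) then 1 else 0 := by
  obtain ⟨j, δ⟩ := i
  unfold unit
  by_cases hk : k = j
  · subst hk
    rw [lp.single_apply_self]
    by_cases hγ : γ = δ
    · subst hγ
      rw [lp.single_apply_self, if_pos rfl]
    · rw [lp.single_apply_ne _ _ _ hγ, if_neg]
      intro h
      exact hγ (Prod.mk.inj h).2.symm
  · rw [lp.single_apply_ne _ _ _ hk, if_neg]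
    · rfl
    · intro h
      exact hk (Prod.mk.inj h).1.symm

/-- The vectors with finite support. -/
def FinSupp (y : Sp 𝕜 Γ) : Prop := ∃ F : Finset (ℕ × Γ), ∀ i, i ∉ F → coord i y = 0

theorem finSupp_span {y : Sp 𝕜 Γ} (hy : y ∈ Submodule.span 𝕜 (range (unit : ℕ × Γ → Sp 𝕜 Γ))) :
    FinSupp y := by
  classical
  induction hy using Submodule.span_induction with
  | mem y hy =>
    obtain ⟨i, rfl⟩ := hy
    refine ⟨{i}, fun j hj => ?_⟩
    rw [coord_apply, unit_apply, if_neg]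
    rintro rfl
    exact hj (Finset.mem_singleton_self _)
  | zero => exact ⟨∅, fun i _ => map_zero _⟩
  | add x y _ _ hx hy =>
    obtain ⟨F, hF⟩ := hx
    obtain ⟨G, hG⟩ := hy
    refine ⟨F ∪ G, fun i hi => ?_⟩
    rw [Finset.mem_union, not_or] at hi
    rw [map_add, hF i hi.1, hG i hi.2, add_zero]
  | smul a x _ hx =>
    obtain ⟨F, hF⟩ := hx
    refine ⟨F, fun i hi => ?_⟩
    rw [map_smul, hF i hi, smul_zero]

theorem mem_closure_span (x : Sp 𝕜 Γ) :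
    x ∈ (Submodule.span 𝕜 (range (unit : ℕ × Γ → Sp 𝕜 Γ))).topologicalClosure := by
  classical
  set V := (Submodule.span 𝕜 (range (unit : ℕ × Γ → Sp 𝕜 Γ))).topologicalClosure with hV
  have hVc : IsClosed (V : Set (Sp 𝕜 Γ)) := Submodule.isClosed_topologicalClosure _
  have h1 : ∀ k (y : Lk 𝕜 Γ k), (lp.single 2 k y : Sp 𝕜 Γ) ∈ V := by
    intro k y
    have h2 := (lp.hasSum_single (ex_ne_top k) y).mapL
      (lp.singleContinuousLinearMap 𝕜 (fun k : ℕ => Lk 𝕜 Γ k) 2 k)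
    refine hVc.mem_of_tendsto h2 (Eventually.of_forall fun F => ?_)
    apply V.sum_mem
    intro γ _
    apply Submodule.le_topologicalClosure
    have h3 : (lp.singleContinuousLinearMap 𝕜 (fun k : ℕ => Lk 𝕜 Γ k) 2 k)
        (lp.single (ex k) γ (y γ)) = y γ • (unit (k, γ) : Sp 𝕜 Γ) := by
      rw [lp.singleContinuousLinearMap_apply]
      unfold unit
      rw [← lp.single_smul, ← lp.single_smul, smul_eq_mul, mul_one]
    rw [h3]
    apply Submodule.smul_mem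
    apply Submodule.subset_span
    exact mem_range_self _
  have h2 := lp.hasSum_single (p := 2) (by norm_num) x
  refine hVc.mem_of_tendsto h2 (Eventually.of_forall fun F => ?_)
  exact V.sum_mem fun k _ => h1 k _

theorem finSupp_dense (x : Sp 𝕜 Γ) {ε : ℝ} (hε : 0 < ε) : ∃ y, FinSupp y ∧ ‖x - y‖ < ε := by
  obtain ⟨y, hy1, hy2⟩ := Metric.mem_closure_iff.1 (mem_closure_span x) ε hε
  refine ⟨y, finSupp_span hy1, ?_⟩
  rwa [dist_eq_norm] at hy2

theorem bounded_complete (a : ℕ × Γ → 𝕜) (M : ℝ)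
    (h : ∀ F : Finset (ℕ × Γ), ‖∑ i ∈ F, a i • (unit i : Sp 𝕜 Γ)‖ ≤ M) :
    ∃ x : Sp 𝕜 Γ, ∀ i, coord i x = a i := by
  classical
  have hM : 0 ≤ M := (norm_nonneg _).trans (h ∅)
  set yt : ∀ k : ℕ, Finset Γ → Lk 𝕜 Γ k := fun k t => ∑ γ ∈ t, lp.single (ex k) γ (a (k, γ))
    with hyt
  have hyt1 : ∀ k t, ‖yt k t‖ ^ (k + 2) = ∑ γ ∈ t, ‖a (k, γ)‖ ^ (k + 2) := by
    intro k t
    have h1 := lp.norm_sum_single (E := fun _ : Γ => 𝕜) (ex_pos k) (fun γ => a (k, γ)) t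
    rw [ex_toReal] at h1
    simpa only [Real.rpow_natCast] using h1
  have hyt2 : ∀ (s : Finset ℕ) (t : Finset Γ), ∑ k ∈ s, ‖yt k t‖ ^ 2 ≤ M ^ 2 := by
    intro s t
    have h1 := lp.norm_sum_single (E := fun k : ℕ => Lk 𝕜 Γ k) (p := 2) (by norm_num)
      (fun k => yt k t) s
    have h2 : ∑ k ∈ s, (lp.single 2 k (yt k t) : Sp 𝕜 Γ) = ∑ i ∈ s ×ˢ t, a i • unit i := by
      rw [Finset.sum_product]
      apply Finset.sum_congr rfl
      intro k _
      have h3 : (lp.single 2 k (yt k t) : Sp 𝕜 Γ) =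
          lp.singleAddMonoidHom (E := fun k : ℕ => Lk 𝕜 Γ k) 2 k (yt k t) := rfl
      rw [h3, hyt]
      simp only
      rw [map_sum]
      apply Finset.sum_congr rfl
      intro γ _
      show (lp.single 2 k (lp.single (ex k) γ (a (k, γ)) : Lk 𝕜 Γ k) : Sp 𝕜 Γ) = _
      unfold unit
      rw [← lp.single_smul, ← lp.single_smul, smul_eq_mul, mul_one]
    rw [h2] at h1
    have h3 : ‖∑ i ∈ s ×ˢ t, a i • (unit i : Sp 𝕜 Γ)‖ ^ 2 = ∑ k ∈ s, ‖yt k t‖ ^ 2 := by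
      simpa using h1
    rw [← h3]
    exact pow_le_pow_left₀ (norm_nonneg _) (h _) 2
  have hyt3 : ∀ k t, ‖yt k t‖ ≤ M := by
    intro k t
    have h1 := hyt2 {k} t
    rw [Finset.sum_singleton] at h1
    exact le_of_sq_le_sq h1 hM
  have hmem : ∀ k, Memℓp (fun γ => a (k, γ)) (ex k) := by
    intro k
    apply memℓp_gen' (C := M ^ (k + 2))
    intro t
    rw [ex_toReal]
    simp only [Real.rpow_natCast]
    rw [← hyt1]
    exact pow_le_pow_left₀ (norm_nonneg _) (hyt3 k t) _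
  set y : ∀ k : ℕ, Lk 𝕜 Γ k := fun k => ⟨fun γ => a (k, γ), hmem k⟩ with hy
  have hlim : ∀ k, Tendsto (fun t => yt k t) atTop (𝓝 (y k)) := fun k =>
    lp.hasSum_single (ex_ne_top k) (y k)
  have hmem2 : Memℓp y 2 := by
    apply memℓp_gen' (C := M ^ 2)
    intro s
    have h1 : Tendsto (fun t => ∑ k ∈ s, ‖yt k t‖ ^ 2) atTop (𝓝 (∑ k ∈ s, ‖y k‖ ^ 2)) :=
      tendsto_finsetSum _ fun k _ => ((hlim k).norm.pow 2)
    have h2 := le_of_tendsto' h1 (hyt2 s)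
    simpa using h2
  exact ⟨⟨y, hmem2⟩, fun i => rfl⟩

/-- The frame of the space. -/
noncomputable def frame (𝕜 : Type) [RCLike 𝕜] (Γ : Type) : Frame 𝕜 (Sp 𝕜 Γ) (ℕ × Γ) where
  c := coord
  e := unit
  P := cutL
  c_self i := by
    rw [coord_apply, unit_apply, if_pos rfl]
  c_ne i j h := by
    rw [coord_apply, unit_apply, if_neg (fun h' => h h'.symm)]
  c_P A i x h := by
    rw [coord_apply, coord_apply, cutL_apply, cut_apply, cutk_apply, indicator_of_mem]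
    exact h
  c_P' A i x h := by
    rw [coord_apply, cutL_apply, cut_apply, cutk_apply, indicator_of_notMem]
    exact h
  ext x h := by
    apply lp.ext
    funext k
    apply lp.ext
    funext γ
    exact h (k, γ)
  norm_P A x := norm_cut_le A x
  upper A x := norm_cut_sq A x
  dense x ε hε := by
    obtain ⟨y, ⟨F, hF⟩, hy⟩ := finSupp_dense x (half_pos hε)
    refine ⟨F, ?_⟩
    have h1 : cutL (F : Set (ℕ × Γ)) y = y := by
      apply lp.ext
      funext k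
      apply lp.ext
      funext γ
      rw [cutL_apply, cut_apply, cutk_apply]
      by_cases h : γ ∈ {γ | (k, γ) ∈ (F : Set (ℕ × Γ))}
      · rw [indicator_of_mem h]
      · rw [indicator_of_notMem h]
        exact (hF (k, γ) (fun h' => h (Finset.mem_coe.2 h'))).symm
    have h2 : x - cutL (F : Set (ℕ × Γ)) x = (x - y) - cutL (F : Set (ℕ × Γ)) (x - y) := by
      rw [map_sub, h1]; abel
    rw [h2]
    calc ‖(x - y) - cutL (F : Set (ℕ × Γ)) (x - y)‖
        ≤ ‖x - y‖ + ‖cutL (F : Set (ℕ × Γ)) (x - y)‖ := norm_sub_le _ _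
      _ ≤ ‖x - y‖ + ‖x - y‖ := by gcongr; exact norm_cut_le _ _
      _ ≤ ε := by linarith
  bc := bounded_complete

theorem exists_injection (Γ : Type) [Infinite Γ] :
    ∃ ι : (ℕ × Γ) × ℕ → Γ, Function.Injective ι := by
  have h0 : Cardinal.aleph0 ≤ Cardinal.mk Γ := Cardinal.aleph0_le_mk Γ
  have h1 : Cardinal.mk ((ℕ × Γ) × ℕ) = Cardinal.mk Γ := by
    simp only [Cardinal.mk_prod, Cardinal.lift_id, Cardinal.mk_nat]
    rw [Cardinal.aleph0_mul_eq h0, Cardinal.mul_aleph0_eq h0]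
  obtain ⟨e⟩ := Cardinal.eq.1 h1
  exact ⟨e, e.injective⟩

theorem level_zero_bound (F : Finset Γ) (x : Sp 𝕜 Γ) :
    ∑ γ ∈ F, ‖coord (0, γ) x‖ ^ 2 ≤ ‖x‖ ^ 2 := by
  have h1 : ∑ γ ∈ F, ‖coord (0, γ) x‖ ^ 2 ≤ ‖x 0‖ ^ 2 := by
    have h2 := hasSum_Lk (x 0)
    exact sum_le_hasSum F (fun γ _ => by positivity) h2
  have h2 : ‖x 0‖ ≤ ‖x‖ := lp.norm_apply_le_norm (by norm_num) x 0
  exact h1.trans (pow_le_pow_left₀ (norm_nonneg _) h2 2)

theorem norm_coord_le (i : ℕ × Γ) : ‖(coord i : Sp 𝕜 Γ →L[𝕜] 𝕜)‖ ≤ 1 := by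
  apply ContinuousLinearMap.opNorm_le_bound _ zero_le_one
  intro x
  rw [one_mul, coord_apply]
  exact (lp.norm_apply_le_norm (ex_ne_zero _) _ _).trans (lp.norm_apply_le_norm (by norm_num) x _)

/-- The dual of the space answers the kernel problem positively. -/
theorem positive_dual_Sp (𝕜 : Type) [RCLike 𝕜] (Γ : Type) [Infinite Γ] :
    Positive 𝕜 (StrongDual 𝕜 (Sp 𝕜 Γ)) := by
  classical
  obtain ⟨ι, hι⟩ := exists_injection Γ
  refine (frame 𝕜 Γ).positive_dual (fun l => (0, ι l)) ?_ ?_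
  · intro l m h
    exact hι (Prod.mk.inj h).2
  · intro F x
    have h1 := level_zero_bound (F.map ⟨ι, hι⟩) x
    rwa [Finset.sum_map] at h1

/-- The functional `x ↦ ∑ 2⁻ᵏ x_{k,γ}`. -/
noncomputable def gfun (γ : Γ) : Sp 𝕜 Γ →L[𝕜] 𝕜 := ∑' k : ℕ, ((1 / 2 : 𝕜) ^ k) • coord (k, γ)

theorem gfun_hasSum (γ : Γ) (x : Sp 𝕜 Γ) :
    HasSum (fun k : ℕ => ((1 / 2 : 𝕜) ^ k) • coord (k, γ) x) (gfun γ x) := by
  have h1 : Summable fun k : ℕ => ((1 / 2 : 𝕜) ^ k) • (coord (k, γ) : Sp 𝕜 Γ →L[𝕜] 𝕜) := by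
    apply Summable.of_norm_bounded (g := fun k : ℕ => (1 / 2 : ℝ) ^ k) summable_geometric_two
    intro k
    rw [norm_smul, norm_pow, norm_div, norm_one, RCLike.norm_ofNat]
    calc (1 / 2 : ℝ) ^ k * ‖(coord (k, γ) : Sp 𝕜 Γ →L[𝕜] 𝕜)‖ ≤ (1 / 2 : ℝ) ^ k * 1 := by
          gcongr; exact norm_coord_le _
      _ = _ := mul_one _
  have h2 := h1.hasSum.mapL (ContinuousLinearMap.apply 𝕜 𝕜 x)
  exact h2

theorem gfun_unit (γ δ : Γ) (k : ℕ) (h : γ ≠ δ) : gfun γ (unit (k, δ) : Sp 𝕜 Γ) = 0 := by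
  apply (gfun_hasSum γ _).unique
  convert hasSum_zero using 2 with j
  rw [coord_apply, unit_apply, if_neg, smul_zero]
  intro h'
  exact h (Prod.mk.inj h').2.symm

theorem gfun_unit_self (γ : Γ) (k : ℕ) : gfun γ (unit (k, γ) : Sp 𝕜 Γ) = (1 / 2 : 𝕜) ^ k := by
  apply (gfun_hasSum γ _).unique
  have h1 : ∀ j, j ≠ k → ((1 / 2 : 𝕜) ^ j) • coord (j, γ) (unit (k, γ) : Sp 𝕜 Γ) = 0 := by
    intro j hj
    rw [coord_apply, unit_apply, if_neg, smul_zero]
    intro h'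
    exact hj (Prod.mk.inj h').1.symm
  have h2 := hasSum_single k h1
  rwa [coord_apply, unit_apply, if_pos rfl, smul_eq_mul, mul_one] at h2

/-- The subspace which is not a kernel. -/
noncomputable def Ysub (𝕜 : Type) [RCLike 𝕜] (Γ : Type) : Submodule 𝕜 (Sp 𝕜 Γ) :=
  ⨅ γ : Γ, LinearMap.ker (gfun γ : Sp 𝕜 Γ →L[𝕜] 𝕜).toLinearMap

theorem mem_Ysub (x : Sp 𝕜 Γ) : x ∈ Ysub 𝕜 Γ ↔ ∀ γ, gfun γ x = 0 := by
  unfold Ysub
  rw [Submodule.mem_iInf]
  rfl

theorem isClosed_Ysub : IsClosed (Ysub 𝕜 Γ : Set (Sp 𝕜 Γ)) := by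
  have h1 : (Ysub 𝕜 Γ : Set (Sp 𝕜 Γ)) = ⋂ γ, {x | gfun γ x = 0} := by
    ext x
    rw [SetLike.mem_coe, mem_Ysub, mem_iInter]
    rfl
  rw [h1]
  exact isClosed_iInter fun γ => isClosed_eq (gfun γ).continuous continuous_const

theorem norm_sum_unit (k : ℕ) (F : Finset Γ) :
    ‖∑ γ ∈ F, (unit (k, γ) : Sp 𝕜 Γ)‖ ^ (k + 2) = F.card := by
  classical
  have h1 := lp.norm_sum_single (E := fun _ : Γ => 𝕜) (ex_pos k) (fun _ => (1 : 𝕜)) F
  rw [ex_toReal] at h1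
  simp only [Real.rpow_natCast, norm_one, one_pow, Finset.sum_const, nsmul_eq_mul, mul_one] at h1
  have h2 : ∑ γ ∈ F, (unit (k, γ) : Sp 𝕜 Γ) =
      lp.single 2 k (∑ γ ∈ F, lp.single (ex k) γ (1 : 𝕜) : Lk 𝕜 Γ k) := by
    have h3 : ∀ z : Lk 𝕜 Γ k, (lp.single 2 k z : Sp 𝕜 Γ) =
        lp.singleAddMonoidHom (E := fun k : ℕ => Lk 𝕜 Γ k) 2 k z := fun z => rfl
    rw [h3, map_sum]
    rfl
  rw [h2, lp.norm_single (by norm_num)]
  exact h1

theorem negative_Sp (𝕜 : Type) [RCLike 𝕜] (Γ : Type) [Uncountable Γ] :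
    ¬ Positive 𝕜 (Sp 𝕜 Γ) := by
  classical
  intro hpos
  obtain ⟨T, hT⟩ := hpos (Ysub 𝕜 Γ) isClosed_Ysub
  set v : Γ → Sp 𝕜 Γ := fun γ => T (unit (0, γ)) with hv
  have hTu : ∀ k γ, T (unit (k, γ)) = ((1 / 2 : 𝕜) ^ k) • v γ := by
    intro k γ
    rw [hv]
    simp only
    rw [← map_smul, ← sub_eq_zero, ← map_sub, ← hT, mem_Ysub]
    intro δ
    rw [map_sub, map_smul]
    by_cases h : δ = γ
    · subst h
      rw [gfun_unit_self, gfun_unit_self, pow_zero, smul_eq_mul, mul_one, sub_self]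
    · rw [gfun_unit _ _ _ h, gfun_unit _ _ _ h, smul_zero, sub_zero]
  have hv0 : ∀ γ, v γ ≠ 0 := by
    intro γ h
    have h1 : (unit (0, γ) : Sp 𝕜 Γ) ∈ Ysub 𝕜 Γ := (hT _).2 h
    rw [mem_Ysub] at h1
    have h2 := h1 γ
    rw [gfun_unit_self, pow_zero] at h2
    exact one_ne_zero h2
  -- an uncountable set on which a fixed component of `v` is bounded below
  obtain ⟨j, δ, hδ, hG⟩ : ∃ (j : ℕ) (δ : ℝ), 0 < δ ∧ ¬ {γ | δ ≤ ‖v γ j‖}.Countable := by
    by_contra hcon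
    push Not at hcon
    apply not_countable (α := Γ)
    rw [← countable_univ_iff]
    have h1 : (univ : Set Γ) ⊆ ⋃ (j : ℕ) (m : ℕ), {γ | 1 / ((m : ℝ) + 1) ≤ ‖v γ j‖} := by
      intro γ _
      obtain ⟨j, hj⟩ : ∃ j, v γ j ≠ 0 := by
        by_contra hall
        push Not at hall
        apply hv0 γ
        apply lp.ext
        funext k
        exact hall k
      obtain ⟨m, hm⟩ := exists_nat_one_div_lt (norm_pos_iff.2 hj)
      exact mem_iUnion₂.2 ⟨j, m, hm.le⟩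
    exact (countable_iUnion fun j => countable_iUnion fun m => hcon j _ (by positivity)).mono h1
  set p : ℕ := j + 2 with hp
  have hsuppx : ∀ x : Sp 𝕜 Γ, {η | x j η ≠ 0}.Countable := by
    intro x
    have h1 := (frame 𝕜 Γ).countable_vector x
    exact h1.preimage (f := fun η : Γ => (j, η)) (Prod.mk_right_injective j)
  have hsuppf : ∀ η : Γ, {γ | v γ j η ≠ 0}.Countable := by
    intro η
    have h1 := (frame 𝕜 Γ).countable_functional ((coord (j, η)).comp T)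
    exact h1.preimage (f := fun γ : Γ => (0, γ)) (Prod.mk_right_injective 0)
  have key : ∀ N : ℕ, ∃ F : Finset Γ, F.card = N ∧ (N : ℝ) * δ ^ p ≤ ‖(∑ γ ∈ F, v γ) j‖ ^ p := by
    intro N
    induction N with
    | zero => exact ⟨∅, rfl, by rw [Nat.cast_zero, zero_mul]; positivity⟩
    | succ N ih =>
      obtain ⟨F, hFc, hF⟩ := ih
      set x := ∑ γ ∈ F, v γ with hx
      have hbad : ((F : Set Γ) ∪ ⋃ η ∈ {η | x j η ≠ 0}, {γ | v γ j η ≠ 0}).Countable :=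
        F.countable_toSet.union ((hsuppx x).biUnion fun η _ => hsuppf η)
      obtain ⟨γ, hγG, hγ⟩ : ∃ γ, δ ≤ ‖v γ j‖ ∧
          γ ∉ (F : Set Γ) ∪ ⋃ η ∈ {η | x j η ≠ 0}, {γ | v γ j η ≠ 0} := by
        by_contra hcon
        push Not at hcon
        exact hG (hbad.mono fun γ hγ => hcon γ hγ)
      rw [mem_union, not_or] at hγ
      have hγF : γ ∉ F := fun h => hγ.1 (Finset.mem_coe.2 h)
      have hdisj : ∀ η, x j η ≠ 0 → v γ j η = 0 := by
        intro η hη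
        by_contra hne
        exact hγ.2 (mem_iUnion₂.2 ⟨η, hη, hne⟩)
      refine ⟨insert γ F, by rw [Finset.card_insert_of_notMem hγF, hFc], ?_⟩
      rw [Finset.sum_insert hγF, ← hx]
      have h1 : (v γ + x) j = v γ j + x j := rfl
      rw [h1]
      have h2 := norm_cutk_pow {η | x j η ≠ 0} (v γ j + x j)
      have h3 : cutk {η | x j η ≠ 0} (v γ j + x j) = x j := by
        apply lp.ext
        funext η
        rw [cutk_apply]
        by_cases hη : η ∈ {η | x j η ≠ 0}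
        · rw [indicator_of_mem hη]
          show v γ j η + x j η = x j η
          rw [hdisj η hη, zero_add]
        · rw [indicator_of_notMem hη]
          exact (not_not.1 hη).symm
      have h4 : cutk {η | x j η ≠ 0}ᶜ (v γ j + x j) = v γ j := by
        apply lp.ext
        funext η
        rw [cutk_apply]
        by_cases hη : η ∈ {η | x j η ≠ 0}
        · rw [indicator_of_notMem (show η ∉ {η | x j η ≠ 0}ᶜ from fun h => h hη)]
          exact (hdisj η hη).symm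
        · rw [indicator_of_mem (show η ∈ {η | x j η ≠ 0}ᶜ from hη)]
          show v γ j η + x j η = v γ j η
          rw [not_not.1 hη, add_zero]
      rw [h3, h4] at h2
      rw [hp, h2]
      have h5 : δ ^ p ≤ ‖v γ j‖ ^ (j + 2) := pow_le_pow_left₀ hδ.le hγG _
      push_cast
      rw [← hp] at h5 ⊢
      linarith
  -- the upper bound
  set C : ℝ := 2 ^ (j + 1) * ‖T‖ with hC
  have hC0 : 0 ≤ C := by positivity
  have hup : ∀ F : Finset Γ, ∃ b : ℝ, 0 ≤ b ∧ b ^ (p + 1) = F.card ∧ ‖(∑ γ ∈ F, v γ) j‖ ≤ C * b := by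
    intro F
    refine ⟨‖∑ γ ∈ F, (unit (j + 1, γ) : Sp 𝕜 Γ)‖, norm_nonneg _, ?_, ?_⟩
    · exact norm_sum_unit (j + 1) F
    · have h1 : ∑ γ ∈ F, v γ = ((2 : 𝕜) ^ (j + 1)) • T (∑ γ ∈ F, unit (j + 1, γ)) := by
        rw [map_sum, Finset.smul_sum]
        apply Finset.sum_congr rfl
        intro γ _
        rw [hTu, smul_smul, ← mul_pow, mul_one_div_cancel two_ne_zero, one_pow, one_smul]
      calc ‖(∑ γ ∈ F, v γ) j‖ ≤ ‖∑ γ ∈ F, v γ‖ := lp.norm_apply_le_norm (by norm_num) _ j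
        _ = 2 ^ (j + 1) * ‖T (∑ γ ∈ F, unit (j + 1, γ))‖ := by
            rw [h1, norm_smul, norm_pow, RCLike.norm_ofNat]
        _ ≤ 2 ^ (j + 1) * (‖T‖ * ‖∑ γ ∈ F, (unit (j + 1, γ) : Sp 𝕜 Γ)‖) := by
            gcongr
            exact T.le_opNorm _
        _ = _ := by rw [hC]; ring
  obtain ⟨N, hN⟩ := exists_nat_gt (C ^ (p * (p + 1)) / δ ^ (p * (p + 1)))
  have hN0 : (0 : ℝ) < N := lt_of_le_of_lt (by positivity) hN
  obtain ⟨F, hFc, hF⟩ := key N
  obtain ⟨b, hb0, hb, hFb⟩ := hup F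
  rw [hFc] at hb
  have h1 : ((N : ℝ) * δ ^ p) ^ (p + 1) ≤ (C * b) ^ (p * (p + 1)) := by
    calc ((N : ℝ) * δ ^ p) ^ (p + 1) ≤ (‖(∑ γ ∈ F, v γ) j‖ ^ p) ^ (p + 1) :=
          pow_le_pow_left₀ (by positivity) hF _
      _ ≤ ((C * b) ^ p) ^ (p + 1) := by gcongr
      _ = _ := by rw [← pow_mul]
  have h2 : (C * b) ^ (p * (p + 1)) = C ^ (p * (p + 1)) * (N : ℝ) ^ p := by
    rw [mul_pow, mul_comm p (p + 1), pow_mul b, hb]
  have h3 : ((N : ℝ) * δ ^ p) ^ (p + 1) = (N * δ ^ (p * (p + 1))) * (N : ℝ) ^ p := by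
    rw [mul_pow, ← pow_mul, pow_succ (N : ℝ) p]; ring
  rw [h2, h3] at h1
  have h4 : (N : ℝ) * δ ^ (p * (p + 1)) ≤ C ^ (p * (p + 1)) :=
    le_of_mul_le_mul_right h1 (by positivity)
  rw [div_lt_iff₀ (by positivity)] at hN
  linarith

end Concrete

/-- **Theorem** (a positive answer to Q2, hence to Q1). For both scalar fields there is a reflexive
Banach space `X` which answers the kernel problem negatively while its dual answers it positively.
The space is the `ℓ₂`-sum of the spaces `ℓ_{k+2}(Γ)`, `k = 0, 1, 2, …`, for an uncountable set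
`Γ`. -/
theorem result (𝕜 : Type) [RCLike 𝕜] :
    ∃ (X : Type) (_ : NormedAddCommGroup X) (_ : NormedSpace 𝕜 X), CompleteSpace X ∧
      Function.Surjective (NormedSpace.inclusionInDoubleDual 𝕜 X) ∧
      ¬ Positive 𝕜 X ∧ Positive 𝕜 (StrongDual 𝕜 X) :=
  ⟨Sp 𝕜 ℝ, inferInstance, inferInstance, inferInstance, (frame 𝕜 ℝ).reflexive, negative_Sp 𝕜 ℝ,
    positive_dual_Sp 𝕜 ℝ⟩

end Pool.Agent.Results.MP_ad4c49_an.ReflexiveKernel
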